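import Pool.Agent.W2helper43.BD.Stm

/-!
Project BD, piece CMP: the Brauer correspondence is compatible with `F`.
-/

open Pool.Agent.W2helper43.BD

namespace Pool.Agent.W2helper77.BD

section basics

variable {Λ G : Type} [CommRing Λ] [Group G]

theorem red_eq [IsLocalRing Λ] (x : MonoidAlgebra Λ G) :
    red x = MonoidAlgebra.mapRingHom G (IsLocalRing.residue Λ) x := by
  ext g
  simp [red]

theorem red_mul [IsLocalRing Λ] (x y : MonoidAlgebra Λ G) : red (x * y) = red x * red y := by
  simp only [red_eq, map_mul]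

theorem red_sum [IsLocalRing Λ] {X : Type} (s : Finset X) (f : X → MonoidAlgebra Λ G) :
    red (∑ x ∈ s, f x) = ∑ x ∈ s, red (f x) := by
  simp only [red_eq, map_sum]

theorem red_surj [IsLocalRing Λ] (y : MonoidAlgebra (IsLocalRing.ResidueField Λ) G) :
    ∃ x : MonoidAlgebra Λ G, red x = y := by
  obtain ⟨x, hx⟩ := MonoidAlgebra.map_surjective (M := G)
    ((IsLocalRing.residue Λ : Λ →+* IsLocalRing.ResidueField Λ) : Λ →+ IsLocalRing.ResidueField Λ)
    IsLocalRing.residue_surjective y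
  exact ⟨x, by rw [red_eq]; exact hx⟩

theorem coeff_red [IsLocalRing Λ] (x : MonoidAlgebra Λ G) (g : G) :
    (red x).coeff g = IsLocalRing.residue Λ (x.coeff g) := by
  simp [red]

theorem coeff_cut (H : Subgroup G) (x : MonoidAlgebra Λ G) (g : G)
    [Decidable (g ∈ Subgroup.centralizer (H : Set G))] :
    (cut H x).coeff g = if g ∈ Subgroup.centralizer (H : Set G) then x.coeff g else 0 := by
  classical
  simp only [cut, MonoidAlgebra.coeff_ofCoeff, Finsupp.filter_apply]
  congr

theorem cut_sum (H : Subgroup G) {X : Type} (s : Finset X) (f : X → MonoidAlgebra Λ G) :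
    cut H (∑ x ∈ s, f x) = ∑ x ∈ s, cut H (f x) := by
  classical
  ext g
  simp only [coeff_cut, MonoidAlgebra.coeff_sum, Finsupp.coe_finsetSum, Finset.sum_apply]
  split_ifs with h
  · rfl
  · simp

theorem coeff_conj (γ g : G) (r : MonoidAlgebra Λ G) :
    (conj γ r).coeff g = r.coeff (γ⁻¹ * g * γ) := by
  simp only [conj, MonoidAlgebra.coeff_mul_single_apply, MonoidAlgebra.coeff_single_mul_apply,
    inv_inv, one_mul, mul_one, mul_assoc]

theorem conj_mul (γ : G) (x y : MonoidAlgebra Λ G) : conj γ (x * y) = conj γ x * conj γ y := by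
  have h : MonoidAlgebra.single γ⁻¹ (1 : Λ) * MonoidAlgebra.single γ 1 = 1 := by
    rw [MonoidAlgebra.single_mul_single, inv_mul_cancel, mul_one, MonoidAlgebra.one_def]
  simp only [conj]
  calc MonoidAlgebra.single γ 1 * (x * y) * MonoidAlgebra.single γ⁻¹ 1
      = MonoidAlgebra.single γ 1 * x * 1 * y * MonoidAlgebra.single γ⁻¹ 1 := by
        simp only [mul_assoc, mul_one]
    _ = _ := by rw [← h]; simp only [mul_assoc]

theorem conj_central (γ : G) (x : MonoidAlgebra Λ G) (hx : ∀ y, x * y = y * x) :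
    conj γ x = x := by
  have h : MonoidAlgebra.single γ (1 : Λ) * MonoidAlgebra.single γ⁻¹ 1 = 1 := by
    rw [MonoidAlgebra.single_mul_single, mul_inv_cancel, mul_one, MonoidAlgebra.one_def]
  rw [conj, ← hx, mul_assoc, h, mul_one]

theorem red_conj [IsLocalRing Λ] (γ : G) (x : MonoidAlgebra Λ G) :
    red (conj γ x) = conj γ (red x) := by
  ext g
  rw [coeff_red, coeff_conj, coeff_conj, coeff_red]

theorem cut_conj (H : Subgroup G) (γ : G) (hγ : γ ∈ Subgroup.normalizer (H : Set G))
    (x : MonoidAlgebra Λ G) : cut H (conj γ x) = conj γ (cut H x) := by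
  classical
  ext g
  rw [coeff_cut, coeff_conj, coeff_conj, coeff_cut]
  have key : g ∈ Subgroup.centralizer (H : Set G) ↔
      γ⁻¹ * g * γ ∈ Subgroup.centralizer (H : Set G) := by
    rw [Subgroup.mem_centralizer_iff, Subgroup.mem_centralizer_iff]
    rw [Subgroup.mem_normalizer_iff] at hγ
    constructor
    · intro h y hy
      have h1 := h _ ((hγ y).1 hy)
      have h2 : γ * y * γ⁻¹ * g = g * (γ * y * γ⁻¹) := h1
      calc y * (γ⁻¹ * g * γ) = γ⁻¹ * (γ * y * γ⁻¹ * g) * γ := by group
        _ = γ⁻¹ * (g * (γ * y * γ⁻¹)) * γ := by rw [h2]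
        _ = γ⁻¹ * g * γ * y := by group
    · intro h y hy
      have h0 : γ⁻¹ * y * γ ∈ (H : Set G) := by
        refine (hγ _).2 ?_
        have : γ * (γ⁻¹ * y * γ) * γ⁻¹ = y := by group
        rw [this]
        exact hy
      have h1 := h _ h0
      calc y * g = γ * (γ⁻¹ * y * γ * (γ⁻¹ * g * γ)) * γ⁻¹ := by group
        _ = γ * (γ⁻¹ * g * γ * (γ⁻¹ * y * γ)) * γ⁻¹ := by rw [h1]
        _ = g * y := by group
  by_cases hg : g ∈ Subgroup.centralizer (H : Set G)
  · rw [if_pos hg, if_pos (key.1 hg)]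
  · rw [if_neg hg, if_neg (fun h => hg (key.2 h))]

theorem mem_norm (K : Subgroup G) (hK : K.Normal) (x : G) :
    x ∈ Subgroup.normalizer (K : Set G) := by
  rw [Subgroup.normalizer_eq_top]
  exact Subgroup.mem_top _

theorem incl_conj (N : Subgroup G) (n : N) (x : MonoidAlgebra Λ N) :
    incl N (conj n x) = conj (n : G) (incl N x) := by
  simp only [conj, incl, map_mul, MonoidAlgebra.mapDomainRingHom_apply,
    MonoidAlgebra.mapDomain_single, Subgroup.coe_subtype, InvMemClass.coe_inv]

end basics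

section maps

variable {Λ G G' : Type} [CommRing Λ] [IsLocalRing Λ] [Group G] [Group G']

theorem red_map (j : G →* G') (x : MonoidAlgebra Λ G) :
    red (MonoidAlgebra.mapDomainRingHom Λ j x) =
      MonoidAlgebra.mapDomainRingHom (IsLocalRing.ResidueField Λ) j (red x) := by
  rw [red_eq, red_eq]
  have := MonoidAlgebra.mapRingHom_comp_mapDomainRingHom (IsLocalRing.residue Λ) j
  exact DFunLike.congr_fun this x

end maps

theorem p_cmp : P_CMP := by
  intro hE hPHI hCOEF hCONJ hORB hMULT hCMPE hCMPF ℓ hℓ Λ V G Γ _ _ _ _ _ _ _ _ _ D H hH D1 hD1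
    b hb hbc c hc
  classical
  obtain ⟨hF1, hF2⟩ := hCMPF D H D1 hD1
  have hCE := hCMPE hℓ D H hH D1 hD1
  obtain ⟨c1, c2, c3, c4, c5, c6⟩ := hCONJ hE hPHI hCOEF D b hb hbc
  obtain ⟨d1, -, -, -, -, -⟩ := hCONJ hE hPHI hCOEF D 1 IsIdempotentElem.one
    (fun x => by rw [one_mul, mul_one])
  obtain ⟨-, -, -, p4, -⟩ := hPHI hE hCOEF D
  rw [p4] at d1
  have hpH' : IsPGroup ℓ (H.map D.iG) := hH.map D.iG
  set E := incl (Subgroup.normalizer ((H.map D.iG : Subgroup Γ) : Set Γ)) (red D1.e) with hEdef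
  set ιk := MonoidAlgebra.mapDomainRingHom (IsLocalRing.ResidueField Λ) D.iG with hιk
  set c0 := incl (Subgroup.normalizer (H : Set G))
        (br (H.subgroupOf (Subgroup.normalizer (H : Set G))) c) with hc0
  set B := br (H.map D.iG) (D.F b) with hB
  have hI : ∀ g, D.iG g ∈ D.I := fun g => ⟨1, g, by simp⟩
  have hHI : ∀ h ∈ (H.map D.iG), h ∈ D.I := by
    rintro h ⟨g, -, rfl⟩
    exact hI g
  -- `ι b` commutes with `iG h`
  have hιb : ∀ h ∈ (H.map D.iG), conj h (D.ι b) = D.ι b := by
    rintro _ ⟨g, -, rfl⟩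
    have h1 : MonoidAlgebra.single (D.iG g) (1 : Λ) = D.ι (MonoidAlgebra.single g 1) := by
      simp [Dat.ι]
    have h2 : MonoidAlgebra.single (D.iG g)⁻¹ (1 : Λ) = D.ι (MonoidAlgebra.single g⁻¹ 1) := by
      simp [Dat.ι]
    rw [conj, h1, h2, ← map_mul, ← hbc, ← map_mul, mul_assoc, MonoidAlgebra.single_mul_single,
      mul_inv_cancel, mul_one, ← MonoidAlgebra.one_def, mul_one]
  have hbE : B * (ιk (br H b) * E) = ιk (br H b) * E := by
    have s1 : D.F b * D.f b = D.f b := by
      have := c6 1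
      have h1 : conj 1 (D.f b) = D.f b := by
        ext g
        rw [coeff_conj]
        simp
      rwa [h1] at this
    have s2 : red (D.F b) * red (D.f b) = red (D.f b) := by rw [← red_mul, s1]
    have s3 : cut (H.map D.iG) (red (D.F b) * red (D.f b)) = cut (H.map D.iG) (red (D.F b)) * cut (H.map D.iG) (red (D.f b)) :=
      hMULT hORB hℓ (H.map D.iG) hpH' _ _
        (fun h _ => by rw [← red_conj, conj_central h (D.F b) c4])
        (fun h hh => by rw [← red_conj, c1 h (hHI h hh)])
    have s4 : cut (H.map D.iG) (red (D.f b)) = ιk (br H b) * E := by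
      have : D.f b = D.ι b * D.e := rfl
      rw [this, red_mul, hMULT hORB hℓ (H.map D.iG) hpH' _ _
        (fun h hh => by rw [← red_conj, hιb h hh])
        (fun h hh => by rw [← red_conj, d1 h (hHI h hh)])]
      have t1 : cut (H.map D.iG) (red (D.ι b)) = ιk (br H b) := hF2 b
      have t2 : cut (H.map D.iG) (red D.e) = E := hCE
      rw [t1, t2]
    rw [← s4]
    have : B = cut (H.map D.iG) (red (D.F b)) := rfl
    rw [this, ← s3, s2]
  -- `E` commutes with `ιk c0`
  have hcomm : ιk c0 * E = E * ιk c0 := by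
    obtain ⟨a, ha⟩ := red_surj (br (H.subgroupOf (Subgroup.normalizer (H : Set G))) c)
    obtain ⟨-, -, -, e4, -⟩ := hE D1
    have h1 : ιk c0 = incl (Subgroup.normalizer ((H.map D.iG : Subgroup Γ) : Set Γ)) (red (D1.ι a)) := by
      have h2 : red (D1.ι a) = MonoidAlgebra.mapDomainRingHom (IsLocalRing.ResidueField Λ) D1.iG
          (red a) := red_map _ _
      rw [h2, ha, hιk, hc0, incl, incl]
      have h3 : (MonoidAlgebra.mapDomainRingHom (IsLocalRing.ResidueField Λ) D.iG).comp
          (MonoidAlgebra.mapDomainRingHom (IsLocalRing.ResidueField Λ)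
            (Subgroup.normalizer (H : Set G)).subtype) =
          (MonoidAlgebra.mapDomainRingHom (IsLocalRing.ResidueField Λ) ((Subgroup.normalizer ((H.map D.iG : Subgroup Γ) : Set Γ))).subtype).comp
          (MonoidAlgebra.mapDomainRingHom (IsLocalRing.ResidueField Λ) D1.iG) := by
        rw [← MonoidAlgebra.mapDomainRingHom_comp, ← MonoidAlgebra.mapDomainRingHom_comp]
        congr 1
        ext g
        exact (hD1.hG g).symm
      exact DFunLike.congr_fun h3 _
    rw [h1, hEdef, ← map_mul, ← map_mul, ← red_mul, ← red_mul, e4]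
  have hkey : B * (ιk c0 * E) = ιk c0 * E := by
    have h1 : ιk (br H b) * ιk c0 = ιk c0 := by rw [← map_mul, hc]
    calc B * (ιk c0 * E) = B * (ιk (br H b) * ιk c0 * E) := by rw [h1]
      _ = B * (ιk (br H b) * (ιk c0 * E)) := by rw [mul_assoc (ιk (br H b))]
      _ = B * (ιk (br H b) * (E * ιk c0)) := by rw [hcomm]
      _ = (B * (ιk (br H b) * E)) * ιk c0 := by simp only [mul_assoc]
      _ = ιk (br H b) * (E * ιk c0) := by rw [hbE, mul_assoc]
      _ = ιk (br H b) * (ιk c0 * E) := by rw [hcomm]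
      _ = ιk c0 * E := by rw [← mul_assoc, h1]
  -- conjugates
  have hconj : ∀ γ ∈ (Subgroup.normalizer ((H.map D.iG : Subgroup Γ) : Set Γ)), B * conj γ (ιk c0 * E) = conj γ (ιk c0 * E) := by
    intro γ hγ
    have h1 : conj γ B = B := by
      have : B = cut (H.map D.iG) (red (D.F b)) := rfl
      rw [this, ← cut_conj (H.map D.iG) γ hγ, ← red_conj, conj_central γ (D.F b) c4]
    calc B * conj γ (ιk c0 * E) = conj γ B * conj γ (ιk c0 * E) := by rw [h1]
      _ = conj γ (B * (ιk c0 * E)) := (conj_mul _ _ _).symm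
      _ = _ := by rw [hkey]
  -- the sum
  have hfin : Fintype ((Subgroup.normalizer ((H.map D.iG : Subgroup Γ) : Set Γ)) ⧸ D1.I) := Fintype.ofFinite _
  have hsum : incl (Subgroup.normalizer ((H.map D.iG : Subgroup Γ) : Set Γ)) (br ((H.map D.iG).subgroupOf (Subgroup.normalizer ((H.map D.iG : Subgroup Γ) : Set Γ))) (D1.F c)) =
      ∑ x : (Subgroup.normalizer ((H.map D.iG : Subgroup Γ) : Set Γ)) ⧸ D1.I, conj ((x.out : (Subgroup.normalizer ((H.map D.iG : Subgroup Γ) : Set Γ))) : Γ) (ιk c0 * E) := by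
    rw [D1.F_eq c, br, red_sum, cut_sum, map_sum]
    refine Finset.sum_congr rfl fun x _ => ?_
    have hn : x.out ∈ Subgroup.normalizer (((H.map D.iG).subgroupOf (Subgroup.normalizer ((H.map D.iG : Subgroup Γ) : Set Γ)) : Subgroup (Subgroup.normalizer ((H.map D.iG : Subgroup Γ) : Set Γ))) : Set (Subgroup.normalizer ((H.map D.iG : Subgroup Γ) : Set Γ))) := by
      exact mem_norm _ Subgroup.normal_in_normalizer _
    rw [red_conj, cut_conj _ _ hn, incl_conj]
    congr 1
    exact hF1 c
  rw [hsum, Finset.mul_sum]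
  exact Finset.sum_congr rfl fun x _ => hconj _ (x.out : (Subgroup.normalizer ((H.map D.iG : Subgroup Γ) : Set Γ))).2

end Pool.Agent.W2helper77.BD
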